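import Pool.Agent.Work.MP_0c1793_al.Ops

/-! # The Drinfeld double of a finite supergroup scheme with diagonalizable even part -/

set_option autoImplicit false

universe u v

open CategoryTheory

namespace Pool.Agent.Work.MP_0c1793_al

variable {k : Type u} [Field k] {X : Type} [AddCommGroup X] [Fintype X] [DecidableEq X]

/-- the algebra `DoubleAlg G` -/
def DD (G : HCData k X) : Type u := RingQuot (RelD G)

noncomputable instance (G : HCData k X) : Ring (DD G) :=
  inferInstanceAs (Ring (RingQuot (RelD G)))

noncomputable instance (G : HCData k X) : Algebra k (DD G) :=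
  inferInstanceAs (Algebra k (RingQuot (RelD G)))

/-- images of the generators which satisfy the relations -/
structure OpsD (G : HCData k X) (B : Type v) [Ring B] [Algebra k B] where
  e : X → B
  par : B
  s : X → B
  x : Fin G.m → B
  xi : Fin G.m → B
  e_mul : ∀ ν ν', e ν * e ν' = if ν = ν' then e ν else 0
  e_sum : ∑ ν : X, e ν = 1
  par_sq : par * par = 1
  par_e : ∀ ν, par * e ν = e ν * par
  par_s : ∀ μ, par * s μ = s μ * par
  par_x : ∀ i, par * x i = -(x i * par)
  par_xi : ∀ i, par * xi i = -(xi i * par)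
  s_zero : s 0 = 1
  s_add : ∀ μ μ', s μ * s μ' = s (μ + μ')
  s_e : ∀ μ ν, s μ * e ν = e ν * s μ
  x_e : ∀ i ν, x i * e ν = e (ν + G.wt i) * x i
  xi_e : ∀ i ν, xi i * e ν = e (ν - G.wt i) * xi i
  x_x : ∀ i j, x i * x j + x j * x i = ∑ ν : X, G.c i j ν • e ν
  xi_xi : ∀ i j, xi i * xi j + xi j * xi i = 0
  xi_s : ∀ i μ, xi i * s μ = s μ * xi i
  x_xi : ∀ i j, x i * xi j + xi j * x i = if i = j then 1 - s (-G.wt i) else 0
  x_s : ∀ i μ, x i * s μ - s μ * x i =
    (2⁻¹ : k) • ((1 + s (-G.wt i)) * s μ * ∑ j, G.c i j μ • xi j)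

namespace OpsD

variable {G : HCData k X} {B : Type v} [Ring B] [Algebra k B]

/-- the assignment on generators -/
def onGen (o : OpsD G B) : Gen X G.m → B
  | .e ν => o.e ν
  | .par => o.par
  | .s μ => o.s μ
  | .x i => o.x i
  | .xi i => o.xi i

/-- the homomorphism from the presented algebra -/
noncomputable def lift (o : OpsD G B) : DD G →ₐ[k] B :=
  RingQuot.liftAlgHom k ⟨FreeAlgebra.lift k o.onGen, by
    intro a b h
    induction h with
    | e_mul ν ν' =>
      rw [map_mul, FreeAlgebra.lift_ι_apply, FreeAlgebra.lift_ι_apply]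
      refine (o.e_mul ν ν').trans ?_
      split_ifs
      · rw [FreeAlgebra.lift_ι_apply]; rfl
      · rw [map_zero]
    | e_sum =>
      rw [map_sum, map_one]
      simp only [FreeAlgebra.lift_ι_apply]
      exact o.e_sum
    | par_sq => simp only [map_mul, map_one, FreeAlgebra.lift_ι_apply]; exact o.par_sq
    | par_e ν => simp only [map_mul, FreeAlgebra.lift_ι_apply]; exact o.par_e ν
    | par_s μ => simp only [map_mul, FreeAlgebra.lift_ι_apply]; exact o.par_s μ
    | par_x i => simp only [map_mul, map_neg, FreeAlgebra.lift_ι_apply]; exact o.par_x i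
    | par_xi i => simp only [map_mul, map_neg, FreeAlgebra.lift_ι_apply]; exact o.par_xi i
    | s_zero => simp only [map_one, FreeAlgebra.lift_ι_apply]; exact o.s_zero
    | s_add μ μ' => simp only [map_mul, FreeAlgebra.lift_ι_apply]; exact o.s_add μ μ'
    | s_e μ ν => simp only [map_mul, FreeAlgebra.lift_ι_apply]; exact o.s_e μ ν
    | x_e i ν => simp only [map_mul, FreeAlgebra.lift_ι_apply]; exact o.x_e i ν
    | xi_e i ν => simp only [map_mul, FreeAlgebra.lift_ι_apply]; exact o.xi_e i ν
    | x_x i j =>
      simp only [map_mul, map_add, map_sum, map_smul, FreeAlgebra.lift_ι_apply]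
      exact o.x_x i j
    | xi_xi i j =>
      simp only [map_mul, map_add, map_zero, FreeAlgebra.lift_ι_apply]
      exact o.xi_xi i j
    | xi_s i μ => simp only [map_mul, FreeAlgebra.lift_ι_apply]; exact o.xi_s i μ
    | x_xi i j =>
      simp only [map_mul, map_add, FreeAlgebra.lift_ι_apply]
      refine (o.x_xi i j).trans ?_
      split_ifs
      · simp only [map_sub, map_one, FreeAlgebra.lift_ι_apply]; rfl
      · rw [map_zero]
    | x_s i μ =>
      simp only [map_mul, map_sub, map_sum, map_add, map_one, map_smul,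
        FreeAlgebra.lift_ι_apply]
      exact o.x_s i μ⟩

end OpsD

variable (G : HCData k X)

/-- the quotient map -/
noncomputable def qD (G : HCData k X) : FreeAlgebra k (Gen X G.m) →ₐ[k] DD G :=
  RingQuot.mkAlgHom k (RelD G)

theorem qD_surjective : Function.Surjective (qD G) := RingQuot.mkAlgHom_surjective k (RelD G)

theorem qD_rel {a b : FreeAlgebra k (Gen X G.m)} (h : RelD G a b) : qD G a = qD G b :=
  RingQuot.mkAlgHom_rel k h

/-- the generators of the presented algebra -/
noncomputable def genD : OpsD G (DD G) where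
  e ν := qD G (fg k (.e ν))
  par := qD G (fg k .par)
  s μ := qD G (fg k (.s μ))
  x i := qD G (fg k (.x i))
  xi i := qD G (fg k (.xi i))
  e_mul ν ν' := by
    rw [← map_mul, qD_rel G (.e_mul ν ν')]
    split_ifs
    · rfl
    · exact map_zero _
  e_sum := by rw [← map_sum, qD_rel G .e_sum, map_one]
  par_sq := by rw [← map_mul, qD_rel G .par_sq, map_one]
  par_e ν := by rw [← map_mul, qD_rel G (.par_e ν), map_mul]
  par_s ν := by rw [← map_mul, qD_rel G (.par_s ν), map_mul]
  par_x ν := by rw [← map_mul, qD_rel G (.par_x ν), map_neg, map_mul]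
  par_xi ν := by rw [← map_mul, qD_rel G (.par_xi ν), map_neg, map_mul]
  s_zero := by rw [qD_rel G .s_zero, map_one]
  s_add μ μ' := by rw [← map_mul, qD_rel G (.s_add μ μ')]
  s_e μ ν := by rw [← map_mul, qD_rel G (.s_e μ ν), map_mul]
  x_e i ν := by rw [← map_mul, qD_rel G (.x_e i ν), map_mul]
  xi_e i ν := by rw [← map_mul, qD_rel G (.xi_e i ν), map_mul]
  x_x i j := by
    simp only [← map_mul, ← map_add, ← map_smul, ← map_sum]
    rw [qD_rel G (.x_x i j)]
  xi_xi i j := by
    simp only [← map_mul, ← map_add]
    rw [qD_rel G (.xi_xi i j), map_zero]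
  xi_s i μ := by rw [← map_mul, qD_rel G (.xi_s i μ), map_mul]
  x_xi i j := by
    rw [← map_mul, ← map_mul, ← map_add, qD_rel G (.x_xi i j)]
    split_ifs
    · rw [map_sub, map_one]
    · exact map_zero _
  x_s i μ := by
    rw [← map_mul, ← map_mul, ← map_sub, qD_rel G (.x_s i μ)]
    simp only [map_smul, map_mul, map_add, map_one, map_sum]

section lift

variable {G} {B : Type v} [Ring B] [Algebra k B] (o : OpsD G B)

theorem liftD_q (a : FreeAlgebra k (Gen X G.m)) :
    o.lift (qD G a) = FreeAlgebra.lift k o.onGen a :=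
  RingQuot.liftAlgHom_mkAlgHom_apply k _ _ _

@[simp] theorem liftD_e (ν : X) : o.lift ((genD G).e ν) = o.e ν := by
  show o.lift (qD G _) = _
  rw [liftD_q, FreeAlgebra.lift_ι_apply]; rfl

@[simp] theorem liftD_par : o.lift (genD G).par = o.par := by
  show o.lift (qD G _) = _
  rw [liftD_q, FreeAlgebra.lift_ι_apply]; rfl

@[simp] theorem liftD_s (μ : X) : o.lift ((genD G).s μ) = o.s μ := by
  show o.lift (qD G _) = _
  rw [liftD_q, FreeAlgebra.lift_ι_apply]; rfl

@[simp] theorem liftD_x (i : Fin G.m) : o.lift ((genD G).x i) = o.x i := by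
  show o.lift (qD G _) = _
  rw [liftD_q, FreeAlgebra.lift_ι_apply]; rfl

@[simp] theorem liftD_xi (i : Fin G.m) : o.lift ((genD G).xi i) = o.xi i := by
  show o.lift (qD G _) = _
  rw [liftD_q, FreeAlgebra.lift_ι_apply]; rfl

end lift

/-- an additive map which commutes with the generators and with `k` is linear over the presented
algebra -/
theorem mapD_smul_of_gen {M N : Type*} [AddCommGroup M] [AddCommGroup N] [Module (DD G) M]
    [Module (DD G) N] [Module k M] [Module k N] [IsScalarTower k (DD G) M]
    [IsScalarTower k (DD G) N] (f : M →ₗ[k] N)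
    (he : ∀ ν m, f ((genD G).e ν • m) = (genD G).e ν • f m)
    (hpar : ∀ m, f ((genD G).par • m) = (genD G).par • f m)
    (hs : ∀ μ m, f ((genD G).s μ • m) = (genD G).s μ • f m)
    (hx : ∀ i m, f ((genD G).x i • m) = (genD G).x i • f m)
    (hxi : ∀ i m, f ((genD G).xi i • m) = (genD G).xi i • f m) :
    ∀ (a : DD G) (m : M), f (a • m) = a • f m := by
  intro a
  obtain ⟨b, rfl⟩ := qD_surjective G a
  induction b using FreeAlgebra.induction with
  | grade0 r =>
    intro m
    rw [AlgHom.commutes, algebraMap_smul, algebraMap_smul, map_smul]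
  | grade1 g =>
    cases g with
    | e ν => exact he ν
    | par => exact hpar
    | s μ => exact hs μ
    | x i => exact hx i
    | xi i => exact hxi i
  | mul a b ha hb =>
    intro m
    rw [map_mul, mul_smul, ha, hb, mul_smul]
  | add a b ha hb =>
    intro m
    rw [map_add, add_smul, map_add, ha, hb, add_smul]

/-- an element which commutes with the generators is central -/
theorem centralD_of_gen {z : DD G} (he : ∀ ν, (genD G).e ν * z = z * (genD G).e ν)
    (hpar : (genD G).par * z = z * (genD G).par) (hs : ∀ μ, (genD G).s μ * z = z * (genD G).s μ)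
    (hx : ∀ i, (genD G).x i * z = z * (genD G).x i)
    (hxi : ∀ i, (genD G).xi i * z = z * (genD G).xi i) (a : DD G) : a * z = z * a := by
  obtain ⟨b, rfl⟩ := qD_surjective G a
  induction b using FreeAlgebra.induction with
  | grade0 r =>
    rw [AlgHom.commutes]
    exact Algebra.commutes r z
  | grade1 g =>
    cases g with
    | e ν => exact he ν
    | par => exact hpar
    | s μ => exact hs μ
    | x i => exact hx i
    | xi i => exact hxi i
  | mul a b ha hb => rw [map_mul, mul_assoc, hb, ← mul_assoc, ha, mul_assoc]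
  | add a b ha hb => rw [map_add, add_mul, mul_add, ha, hb]

/-! ## The trivial module -/

/-- the augmentation -/
noncomputable def augD : DD G →ₐ[k] k :=
  RingQuot.liftAlgHom k ⟨FreeAlgebra.lift k (augFun G), fun _ _ h => augFun_rel G h⟩

/-- the trivial supermodule -/
def TrivD (_ : HCData k X) : Type u := k

noncomputable instance : AddCommGroup (TrivD G) := inferInstanceAs (AddCommGroup k)

noncomputable instance : Module k (TrivD G) := inferInstanceAs (Module k k)

noncomputable instance : Module (DD G) (TrivD G) := Module.compHom k (augD G).toRingHom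

/-- the unit object of the category of supermodules over `D(G)` -/
noncomputable def unitD : ModuleCat.{u} (DD G) := ModuleCat.of (DD G) (TrivD G)

theorem augD_q (a : FreeAlgebra k (Gen X G.m)) :
    augD G (qD G a) = FreeAlgebra.lift k (augFun G) a :=
  RingQuot.liftAlgHom_mkAlgHom_apply k _ _ _

theorem augD_e (ν : X) : augD G ((genD G).e ν) = if ν = 0 then 1 else 0 := by
  show augD G (qD G _) = _
  rw [augD_q, FreeAlgebra.lift_ι_apply]; rfl

theorem augD_par : augD G (genD G).par = 1 := by
  show augD G (qD G _) = _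
  rw [augD_q, FreeAlgebra.lift_ι_apply]; rfl

theorem augD_s (μ : X) : augD G ((genD G).s μ) = 1 := by
  show augD G (qD G _) = _
  rw [augD_q, FreeAlgebra.lift_ι_apply]; rfl

theorem augD_x (i : Fin G.m) : augD G ((genD G).x i) = 0 := by
  show augD G (qD G _) = _
  rw [augD_q, FreeAlgebra.lift_ι_apply]; rfl

theorem augD_xi (i : Fin G.m) : augD G ((genD G).xi i) = 0 := by
  show augD G (qD G _) = _
  rw [augD_q, FreeAlgebra.lift_ι_apply]; rfl

theorem trivD_smul (a : DD G) (m : TrivD G) : a • m = (augD G a • (show k from m) : k) := rfl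

instance : IsScalarTower k (DD G) (TrivD G) where
  smul_assoc r a m := by
    rw [trivD_smul, trivD_smul, map_smul, smul_assoc]
    rfl

end Pool.Agent.Work.MP_0c1793_al
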