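import Pool.Agent.Work.MP_0c1793_al.T.Defs2

/-! # The central idempotent of the 2-part -/

set_option autoImplicit false

universe u v

namespace Pool.Agent.Work.MP_0c1793_al

/-- the largest odd divisor of the order -/
def oddN (X : Type) [Fintype X] : ℕ := ordCompl[2] (Fintype.card X)

variable {k : Type u} [Field k] {X : Type} [AddCommGroup X] [Fintype X] [DecidableEq X]

omit [DecidableEq X] in
theorem oddN_odd : Odd (oddN X) := by
  rw [← Nat.not_even_iff_odd, even_iff_two_dvd]
  exact Nat.not_dvd_ordCompl Nat.prime_two Fintype.card_ne_zero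

omit [DecidableEq X] in
/-- the multiples of `oddN X` are killed by a power of two -/
theorem two_pow_oddN : ∃ a : ℕ, ∀ μ : X, 2 ^ a • (oddN X • μ) = 0 := by
  refine ⟨(Fintype.card X).factorization 2, fun μ => ?_⟩
  rw [← mul_smul]
  unfold oddN
  rw [Nat.ordProj_mul_ordCompl_eq_self, card_nsmul_eq_zero]

omit [DecidableEq X] in
theorem c_oddN (h2 : (2 : k) ≠ 0) (c : X →+ k) (μ : X) : c (oddN X • μ) = 0 := by
  obtain ⟨a, ha⟩ := two_pow_oddN (X := X)
  have h1 := congrArg c (ha μ)
  rw [map_nsmul, map_zero, nsmul_eq_mul] at h1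
  rcases mul_eq_zero.1 h1 with h3 | h3
  · push_cast at h3
    exact absurd h3 (pow_ne_zero a h2)
  · exact h3

variable (X) in
/-- the multiples of `oddN X` -/
def HH : Finset X := Finset.univ.image fun μ => oddN X • μ

theorem mem_HH {h : X} : h ∈ HH X ↔ ∃ μ, oddN X • μ = h := by
  unfold HH
  simp

theorem add_mem_HH {h : X} (hh : h ∈ HH X) (μ : X) : oddN X • μ + h ∈ HH X := by
  obtain ⟨ν, rfl⟩ := mem_HH.1 hh
  exact mem_HH.2 ⟨μ + ν, by rw [smul_add]⟩

theorem card_HH (h2 : (2 : k) ≠ 0) : ((HH X).card : k) ≠ 0 := by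
  classical
  let R : AddSubgroup X := (nsmulAddMonoidHom (oddN X) : X →+ X).range
  have hR : ∀ x, x ∈ R ↔ ∃ μ, oddN X • μ = x := fun x => AddMonoidHom.mem_range
  have hcard : Nat.card R = (HH X).card := by
    rw [← Set.ncard_coe_finset, ← Nat.card_coe_set_eq]
    refine Nat.card_congr (Equiv.subtypeEquivRight fun x => ?_)
    rw [hR]
    exact (mem_HH (X := X)).symm
  obtain ⟨a, ha⟩ := two_pow_oddN (X := X)
  have hne : Nat.card R ≠ 0 := Nat.card_pos.ne'
  have hpow : Nat.card R = 2 ^ (Nat.card R).primeFactorsList.length := by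
    refine Nat.eq_prime_pow_of_unique_prime_dvd hne ?_
    intro q hq hdvd
    have : Fact q.Prime := ⟨hq⟩
    obtain ⟨x, hx⟩ := exists_prime_addOrderOf_dvd_card' (G := R) q hdvd
    have h1 : (2 ^ a) • x = 0 := by
      obtain ⟨μ, hμ⟩ := (hR x).1 x.2
      apply Subtype.ext
      rw [AddSubgroup.coe_nsmul, ← hμ, ha]
      rfl
    have h3 : q ∣ 2 ^ a := by
      rw [← hx]
      exact addOrderOf_dvd_of_nsmul_eq_zero h1
    exact (Nat.prime_dvd_prime_iff_eq hq Nat.prime_two).1 (hq.dvd_of_dvd_pow h3)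
  rw [← hcard, hpow]
  push_cast
  exact pow_ne_zero _ h2

/-- the average over `HH X` -/
noncomputable def epsH {B : Type v} [Ring B] [Algebra k B] (s : X → B) : B :=
  ((HH X).card : k)⁻¹ • ∑ h ∈ HH X, s h

section

variable {B : Type v} [Ring B] [Algebra k B] {s : X → B}

theorem s_epsH (hs : ∀ μ μ', s μ * s μ' = s (μ + μ')) (μ : X) :
    s (oddN X • μ) * epsH (k := k) s = epsH (k := k) s := by
  unfold epsH
  rw [mul_smul_comm, Finset.mul_sum]
  congr 1
  rw [Finset.sum_congr rfl fun h _ => hs (oddN X • μ) h]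
  refine Finset.sum_nbij' (fun h => oddN X • μ + h) (fun h => oddN X • (-μ) + h)
    (fun h hh => add_mem_HH hh μ) (fun h hh => add_mem_HH hh (-μ)) ?_ ?_ (fun h _ => rfl)
  · intro h _
    simp only [smul_neg]
    abel
  · intro h _
    simp only [smul_neg]
    abel

theorem epsH_comm {a : B} (h : ∀ μ, a * s (oddN X • μ) = s (oddN X • μ) * a) :
    a * epsH (k := k) s = epsH (k := k) s * a := by
  unfold epsH
  rw [mul_smul_comm, smul_mul_assoc, Finset.mul_sum, Finset.sum_mul]
  congr 1
  refine Finset.sum_congr rfl fun x hx => ?_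
  obtain ⟨μ, rfl⟩ := mem_HH.1 hx
  exact h μ

theorem epsH_smul (h2 : (2 : k) ≠ 0) {M : Type*} [AddCommGroup M] [Module B M] [Module k M]
    [IsScalarTower k B M] {m : M} (h : ∀ μ, s (oddN X • μ) • m = m) :
    epsH (k := k) s • m = m := by
  unfold epsH
  have h1 : (∑ x ∈ HH X, s x) • m = ((HH X).card : k) • m := by
    rw [Finset.sum_smul, Finset.sum_congr rfl (g := fun _ => m), Finset.sum_const]
    · exact (Nat.cast_smul_eq_nsmul k _ _).symm
    · intro x hx
      obtain ⟨μ, rfl⟩ := mem_HH.1 hx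
      exact h μ
  rw [smul_assoc, h1, smul_smul, inv_mul_cancel₀ (card_HH h2), one_smul]

end

/-- the elements `s (oddN X • μ)` are central -/
theorem sD_central (h2 : (2 : k) ≠ 0) (G : HCData k X) (μ : X) (a : DD G) :
    a * (genD G).s (oddN X • μ) = (genD G).s (oddN X • μ) * a := by
  refine centralD_of_gen G (fun ν => ((genD G).s_e _ ν).symm) ((genD G).par_s _) (fun μ' => ?_)
    (fun i => ?_) (fun i => (genD G).xi_s i _) a
  · rw [(genD G).s_add, (genD G).s_add, add_comm]
  · rw [← sub_eq_zero, (genD G).x_s]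
    simp only [c_oddN h2, zero_smul, Finset.sum_const_zero, mul_zero, smul_zero]

/-- an element which commutes with the generators is central -/
theorem central_of_gen (G : HCData k X) {z : Dbl G} (he : ∀ ν, (gen G).e ν * z = z * (gen G).e ν)
    (hpar : (gen G).par * z = z * (gen G).par) (hs : ∀ μ, (gen G).s μ * z = z * (gen G).s μ)
    (hx : ∀ i, (gen G).x i * z = z * (gen G).x i)
    (hxi : ∀ i, (gen G).xi i * z = z * (gen G).xi i) (a : Dbl G) : a * z = z * a := by
  obtain ⟨b, rfl⟩ := q_surjective G a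
  induction b using FreeAlgebra.induction with
  | grade0 r =>
    rw [AlgHom.commutes]
    exact Algebra.commutes r z
  | grade1 g =>
    cases g with
    | e ν => exact he ν
    | par => exact hpar
    | s μ => exact hs μ
    | x i => exact hx i
    | xi i => exact hxi i
  | mul a b ha hb => rw [map_mul, mul_assoc, hb, ← mul_assoc, ha, mul_assoc]
  | add a b ha hb => rw [map_add, add_mul, mul_add, ha, hb]

/-- the elements `s (oddN X • μ)` are central -/
theorem s_central (h2 : (2 : k) ≠ 0) (G : HCData k X) (μ : X) (a : Dbl G) :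
    a * (gen G).s (oddN X • μ) = (gen G).s (oddN X • μ) * a := by
  refine central_of_gen G (fun ν => ((gen G).s_e _ ν).symm) ((gen G).par_s _) (fun μ' => ?_)
    (fun i => ?_) (fun i => (gen G).xi_s i _) a
  · rw [(gen G).s_add, (gen G).s_add, add_comm]
  · rw [← sub_eq_zero, (gen G).x_s]
    simp only [c_oddN h2, zero_smul, Finset.sum_const_zero, mul_zero]

end Pool.Agent.Work.MP_0c1793_al
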