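import Pool.Agent.Work.MP_0c1793_al.T.Twist

/-! # The functor of the invariants of the 2-part -/

set_option autoImplicit false
set_option linter.unusedSectionVars false

universe u v

namespace Pool.Agent.Work.MP_0c1793_al

variable {k : Type u} [Field k] {X : Type} [AddCommGroup X] [Fintype X] [DecidableEq X]

section

variable (h2 : (2 : k) ≠ 0) (G : HCData k X) (M : Type v) [AddCommGroup M] [Module k M]
  [Module (DD G) M] [IsScalarTower k (DD G) M]

/-- the invariants of the 2-part -/
def FS : Submodule (DD G) M where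
  carrier := {m | ∀ μ : X, (genD G).s (oddN X • μ) • m = m}
  add_mem' := by
    intro a b ha hb μ
    rw [smul_add, ha μ, hb μ]
  zero_mem' := fun μ => smul_zero _
  smul_mem' := by
    intro a m hm μ
    rw [← mul_smul, ← sD_central h2 G μ a, mul_smul, hm μ]

/-- the invariants as a module over the other algebra -/
def FX : Type v := FS h2 G M

noncomputable instance : AddCommGroup (FX h2 G M) := inferInstanceAs (AddCommGroup (FS h2 G M))

noncomputable instance : Module k (FX h2 G M) := inferInstanceAs (Module k (FS h2 G M))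

noncomputable instance : Module (Dbl G) (FX h2 G M) :=
  Module.compHom (FS h2 G M) (phiD h2 G).toRingHom

instance : IsScalarTower k (Dbl G) (FX h2 G M) where
  smul_assoc r a m := by
    show phiD h2 G (r • a) • (show FS h2 G M from m) = r • (phiD h2 G a • (show FS h2 G M from m))
    rw [map_smul, smul_assoc]

end

/-! ## The elements `uu` and `vv` -/

section

variable {B B' : Type*} [Ring B] [Algebra k B] [Ring B'] [Algebra k B']

theorem map_uu (φ : B →ₐ[k] B') (s : X → B) (l : X) :
    φ (uu (k := k) s l) = uu (k := k) (fun μ => φ (s μ)) l := by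
  rw [uu, uu, map_smul, map_add, map_one]

theorem map_vv (φ : B →ₐ[k] B') (s : X → B) (l : X) :
    φ (vv s l) = vv (fun μ => φ (s μ)) l := by
  rw [vv, vv, map_sum]
  refine Finset.sum_congr rfl fun n _ => ?_
  rw [map_mul, map_pow, map_neg, map_one]

end

section phi

variable (h2 : (2 : k) ≠ 0) (G : HCData k X)

theorem phiD_e (ν : X) : phiD h2 G ((gen G).e ν) = (genD G).e ν := lift_e _ ν

theorem phiD_par : phiD h2 G (gen G).par = (genD G).par := lift_par _

theorem phiD_s (μ : X) : phiD h2 G ((gen G).s μ) = (genD G).s μ := lift_s _ μ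

theorem phiD_x (i : Fin G.m) : phiD h2 G ((gen G).x i) = (genD G).x i := lift_x _ i

theorem phiD_xi (i : Fin G.m) :
    phiD h2 G ((gen G).xi i) = uu (k := k) (genD G).s (G.wt i) * (genD G).xi i := lift_xi _ i

end phi

section inv

variable (h2 : (2 : k) ≠ 0) (G : HCData k X) (Z : Type v) [AddCommGroup Z] [Module k Z]
  [Module (Dbl G) Z] [IsScalarTower k (Dbl G) Z]

/-- the invariants of the 2-part, over the other algebra -/
def IV : Submodule (Dbl G) Z where
  carrier := {m | ∀ μ : X, (gen G).s (oddN X • μ) • m = m}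
  add_mem' := by
    intro a b ha hb μ
    rw [smul_add, ha μ, hb μ]
  zero_mem' := fun μ => smul_zero _
  smul_mem' := by
    intro a m hm μ
    rw [← mul_smul, ← s_central h2 G μ a, mul_smul, hm μ]

/-- the operators on the invariants -/
noncomputable def ivOps : Ops G (Module.End k (IV h2 G Z)) :=
  (gen G).map (Algebra.lsmul k k (IV h2 G Z))

theorem ivOps_one (μ : X) : (ivOps h2 G Z).s (oddN X • μ) = 1 := by
  apply LinearMap.ext
  intro z
  apply Subtype.ext
  exact z.2 μ

/-- the twisted invariants -/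
def Tw : Type v := IV h2 G Z

noncomputable instance : AddCommGroup (Tw h2 G Z) := inferInstanceAs (AddCommGroup (IV h2 G Z))

noncomputable instance : Module k (Tw h2 G Z) := inferInstanceAs (Module k (IV h2 G Z))

/-- the algebra homomorphism which defines the twisted invariants -/
noncomputable def twA : DD G →ₐ[k] Module.End k (IV h2 G Z) :=
  ((ivOps h2 G Z).toOpsD h2 (ivOps_one h2 G Z)).lift

noncomputable instance : Module (DD G) (Tw h2 G Z) :=
  Module.compHom (IV h2 G Z) (twA h2 G Z).toRingHom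

/-- the identity -/
noncomputable def toTw : IV h2 G Z ≃ₗ[k] Tw h2 G Z := LinearEquiv.refl k _

theorem smul_toTw (a : DD G) (z : IV h2 G Z) :
    a • toTw h2 G Z z = toTw h2 G Z (twA h2 G Z a z) := rfl

theorem toTw_surj (z : Tw h2 G Z) : ∃ y, toTw h2 G Z y = z := (toTw h2 G Z).surjective z

instance : IsScalarTower k (DD G) (Tw h2 G Z) where
  smul_assoc r a m := by
    obtain ⟨m, rfl⟩ := toTw_surj h2 G Z m
    rw [smul_toTw, smul_toTw, map_smul, LinearMap.smul_apply, map_smul]

theorem twA_e (ν : X) (z : IV h2 G Z) : twA h2 G Z ((genD G).e ν) z = (gen G).e ν • z := by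
  rw [twA, liftD_e]
  rfl

theorem twA_par (z : IV h2 G Z) : twA h2 G Z (genD G).par z = (gen G).par • z := by
  rw [twA, liftD_par]
  rfl

theorem twA_s (μ : X) (z : IV h2 G Z) : twA h2 G Z ((genD G).s μ) z = (gen G).s μ • z := by
  rw [twA, liftD_s]
  rfl

theorem twA_x (i : Fin G.m) (z : IV h2 G Z) : twA h2 G Z ((genD G).x i) z = (gen G).x i • z := by
  rw [twA, liftD_x]
  rfl

theorem twA_xi (i : Fin G.m) (z : IV h2 G Z) :
    twA h2 G Z ((genD G).xi i) z = (vv (gen G).s (G.wt i) * (gen G).xi i) • z := by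
  have h1 : twA h2 G Z ((genD G).xi i) =
      Algebra.lsmul k k (IV h2 G Z) (vv (gen G).s (G.wt i) * (gen G).xi i) := by
    rw [twA, liftD_xi, map_mul, map_vv]
    rfl
  rw [h1]
  rfl

theorem twA_uu_xi (i : Fin G.m) (z : IV h2 G Z) :
    twA h2 G Z (uu (k := k) (genD G).s (G.wt i) * (genD G).xi i) z = (gen G).xi i • z := by
  have h0 : (fun μ => twA h2 G Z ((genD G).s μ)) = (ivOps h2 G Z).s := by
    funext μ
    rw [twA, liftD_s]
    rfl
  have h1 : twA h2 G Z (uu (k := k) (genD G).s (G.wt i) * (genD G).xi i) = (ivOps h2 G Z).xi i := by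
    rw [map_mul, map_uu, h0, twA, liftD_xi]
    show uu (k := k) (ivOps h2 G Z).s (G.wt i) *
      (vv (ivOps h2 G Z).s (G.wt i) * (ivOps h2 G Z).xi i) = (ivOps h2 G Z).xi i
    rw [← mul_assoc, uu_vv h2 (ivOps h2 G Z).s_zero (ivOps h2 G Z).s_add (G.wt i)
      (ivOps_one h2 G Z (G.wt i)), one_mul]
  rw [h1]
  rfl

end inv

section FSfacts

variable (h2 : (2 : k) ≠ 0) (G : HCData k X) (M : Type v) [AddCommGroup M] [Module k M]
  [Module (DD G) M] [IsScalarTower k (DD G) M]

theorem FS_vv_uu (l : X) (m : FS h2 G M) :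
    (vv (genD G).s l * uu (k := k) (genD G).s l) • m = m := by
  let φ : DD G →ₐ[k] Module.End k (FS h2 G M) := Algebra.lsmul k k (FS h2 G M)
  have h1 : φ (vv (genD G).s l * uu (k := k) (genD G).s l) = 1 := by
    rw [map_mul, map_vv, map_uu]
    refine vv_uu h2 ?_ ?_ l ?_
    · show φ ((genD G).s 0) = 1
      rw [(genD G).s_zero, map_one]
    · intro μ μ'
      show φ ((genD G).s μ) * φ ((genD G).s μ') = φ ((genD G).s (μ + μ'))
      rw [← map_mul, (genD G).s_add]
    · show φ ((genD G).s (oddN X • l)) = 1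
      apply LinearMap.ext
      intro z
      apply Subtype.ext
      exact z.2 l
  have h2' := congrArg (fun T : Module.End k (FS h2 G M) => T m) h1
  exact h2'

/-- the inclusion of the invariants -/
noncomputable def FXval : FX h2 G M →ₗ[k] M := (FS h2 G M).subtype.restrictScalars k

theorem FXval_injective : Function.Injective (FXval h2 G M) := Subtype.val_injective

theorem FXval_inv (m : FX h2 G M) (μ : X) :
    (genD G).s (oddN X • μ) • FXval h2 G M m = FXval h2 G M m :=
  (show FS h2 G M from m).2 μ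

theorem FXval_smul (a : Dbl G) (m : FX h2 G M) :
    FXval h2 G M (a • m) = phiD h2 G a • FXval h2 G M m := rfl

theorem FX_s (m : FX h2 G M) (μ : X) : (gen G).s (oddN X • μ) • m = m := by
  apply FXval_injective
  rw [FXval_smul, phiD_s, FXval_inv]

theorem FXval_xi (i : Fin G.m) (m : FX h2 G M) :
    FXval h2 G M ((vv (gen G).s (G.wt i) * (gen G).xi i) • m) =
      (genD G).xi i • FXval h2 G M m := by
  rw [FXval_smul, map_mul, map_vv, phiD_xi]
  have h0 : (fun μ => phiD h2 G ((gen G).s μ)) = (genD G).s := by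
    funext μ
    rw [phiD_s]
  rw [h0, ← mul_assoc, mul_smul]
  exact congrArg Subtype.val
    (FS_vv_uu h2 G M (G.wt i) ((genD G).xi i • (show FS h2 G M from m)))

end FSfacts

section Aux

variable (h2 : (2 : k) ≠ 0) (G : HCData k X) (I : Type v) [AddCommGroup I] [Module k I]
  [Module (DD G) I] [IsScalarTower k (DD G) I]
  {Y Z : Type v} [AddCommGroup Y] [Module k Y] [Module (Dbl G) Y] [IsScalarTower k (Dbl G) Y]
  [AddCommGroup Z] [Module k Z] [Module (Dbl G) Z] [IsScalarTower k (Dbl G) Z]

theorem IV_map (f : Y →ₗ[Dbl G] Z) (y : IV h2 G Y) : f y ∈ IV h2 G Z := by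
  intro μ
  rw [← map_smul, y.2 μ]

/-- the map on the invariants -/
noncomputable def ivMap (f : Y →ₗ[Dbl G] Z) : IV h2 G Y →ₗ[Dbl G] IV h2 G Z :=
  (f.comp (IV h2 G Y).subtype).codRestrict (IV h2 G Z) (IV_map h2 G f)

/-- a linear map of modules over the presented algebra is linear over `k` -/
theorem map_k (f : Y →ₗ[Dbl G] Z) (c : k) (y : Y) : f (c • y) = c • f y := by
  rw [← algebraMap_smul (Dbl G) c y, map_smul, algebraMap_smul]

/-- the map on the twisted invariants -/
noncomputable def twMapk (f : Y →ₗ[Dbl G] Z) : Tw h2 G Y →ₗ[k] Tw h2 G Z where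
  toFun y := toTw h2 G Z (ivMap h2 G f ((toTw h2 G Y).symm y))
  map_add' a b := by rw [map_add, map_add, map_add]
  map_smul' c a := by rw [map_smul, map_k G (ivMap h2 G f) c, map_smul, RingHom.id_apply]

theorem twMapk_apply (f : Y →ₗ[Dbl G] Z) (y : IV h2 G Y) :
    twMapk h2 G f (toTw h2 G Y y) = toTw h2 G Z (ivMap h2 G f y) := rfl

/-- the map on the twisted invariants -/
noncomputable def twMap (f : Y →ₗ[Dbl G] Z) : Tw h2 G Y →ₗ[DD G] Tw h2 G Z where
  toFun := twMapk h2 G f
  map_add' := map_add _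
  map_smul' := by
    refine mapD_smul_of_gen G (twMapk h2 G f) ?_ ?_ ?_ ?_ ?_
    · intro ν m
      obtain ⟨m, rfl⟩ := toTw_surj h2 G Y m
      rw [smul_toTw, twMapk_apply, twMapk_apply, smul_toTw, twA_e, twA_e, map_smul]
    · intro m
      obtain ⟨m, rfl⟩ := toTw_surj h2 G Y m
      rw [smul_toTw, twMapk_apply, twMapk_apply, smul_toTw, twA_par, twA_par, map_smul]
    · intro μ m
      obtain ⟨m, rfl⟩ := toTw_surj h2 G Y m
      rw [smul_toTw, twMapk_apply, twMapk_apply, smul_toTw, twA_s, twA_s, map_smul]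
    · intro i m
      obtain ⟨m, rfl⟩ := toTw_surj h2 G Y m
      rw [smul_toTw, twMapk_apply, twMapk_apply, smul_toTw, twA_x, twA_x, map_smul]
    · intro i m
      obtain ⟨m, rfl⟩ := toTw_surj h2 G Y m
      rw [smul_toTw, twMapk_apply, twMapk_apply, smul_toTw, twA_xi, twA_xi, map_smul]

theorem twMap_apply (f : Y →ₗ[Dbl G] Z) (y : IV h2 G Y) :
    twMap h2 G f (toTw h2 G Y y) = toTw h2 G Z (ivMap h2 G f y) := rfl

/-- a map into the invariants -/
noncomputable def twOutk (g : Y →ₗ[Dbl G] FX h2 G I) : Tw h2 G Y →ₗ[k] I where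
  toFun y := FXval h2 G I (g ((toTw h2 G Y).symm y : Y))
  map_add' a b := by rw [map_add, Submodule.coe_add, map_add, map_add]
  map_smul' c a := by
    have h1 : (((toTw h2 G Y).symm (c • a) : IV h2 G Y) : Y) =
        c • (((toTw h2 G Y).symm a : IV h2 G Y) : Y) := by
      rw [map_smul]
      rfl
    rw [h1, map_k G g c, map_smul, RingHom.id_apply]

theorem twOutk_apply (g : Y →ₗ[Dbl G] FX h2 G I) (y : IV h2 G Y) :
    twOutk h2 G I g (toTw h2 G Y y) = FXval h2 G I (g (y : Y)) := rfl

theorem g_smul (g : Y →ₗ[Dbl G] FX h2 G I) (a : Dbl G) (y : IV h2 G Y) :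
    g ((a • y : IV h2 G Y) : Y) = a • g (y : Y) := by
  rw [← map_smul]
  rfl

/-- a map into the invariants -/
noncomputable def twOut (g : Y →ₗ[Dbl G] FX h2 G I) : Tw h2 G Y →ₗ[DD G] I where
  toFun := twOutk h2 G I g
  map_add' := map_add _
  map_smul' := by
    refine mapD_smul_of_gen G (twOutk h2 G I g) ?_ ?_ ?_ ?_ ?_
    · intro ν m
      obtain ⟨m, rfl⟩ := toTw_surj h2 G Y m
      rw [smul_toTw, twOutk_apply, twOutk_apply, twA_e, g_smul, FXval_smul, phiD_e]
    · intro m
      obtain ⟨m, rfl⟩ := toTw_surj h2 G Y m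
      rw [smul_toTw, twOutk_apply, twOutk_apply, twA_par, g_smul, FXval_smul, phiD_par]
    · intro μ m
      obtain ⟨m, rfl⟩ := toTw_surj h2 G Y m
      rw [smul_toTw, twOutk_apply, twOutk_apply, twA_s, g_smul, FXval_smul, phiD_s]
    · intro i m
      obtain ⟨m, rfl⟩ := toTw_surj h2 G Y m
      rw [smul_toTw, twOutk_apply, twOutk_apply, twA_x, g_smul, FXval_smul, phiD_x]
    · intro i m
      obtain ⟨m, rfl⟩ := toTw_surj h2 G Y m
      rw [smul_toTw, twOutk_apply, twOutk_apply, twA_xi, g_smul, FXval_xi]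

theorem twOut_apply (g : Y →ₗ[Dbl G] FX h2 G I) (y : IV h2 G Y) :
    twOut h2 G I g (toTw h2 G Y y) = FXval h2 G I (g (y : Y)) := rfl

/-- a linear map from the twisted invariants has values in the invariants -/
theorem tw_mem (h : Tw h2 G Z →ₗ[DD G] I) (z : IV h2 G Z) :
    h (toTw h2 G Z z) ∈ FS h2 G I := by
  intro μ
  rw [← map_smul, smul_toTw, twA_s]
  congr 2
  apply Subtype.ext
  exact z.2 μ

/-- the map into the invariants -/
noncomputable def twLk (h : Tw h2 G Z →ₗ[DD G] I) : IV h2 G Z →ₗ[k] FS h2 G I where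
  toFun z := ⟨h (toTw h2 G Z z), tw_mem h2 G I h z⟩
  map_add' a b := by
    apply Subtype.ext
    show h (toTw h2 G Z (a + b)) = h (toTw h2 G Z a) + h (toTw h2 G Z b)
    rw [map_add, map_add]
  map_smul' c a := by
    apply Subtype.ext
    show h (toTw h2 G Z (c • a)) = c • h (toTw h2 G Z a)
    have h1 : h (c • toTw h2 G Z a) = c • h (toTw h2 G Z a) := by
      rw [← algebraMap_smul (DD G) c (toTw h2 G Z a), map_smul, algebraMap_smul]
    rw [map_smul, h1]

/-- the map into the invariants -/
noncomputable def twL (h : Tw h2 G Z →ₗ[DD G] I) : IV h2 G Z →ₗ[k] FX h2 G I := twLk h2 G I h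

theorem twL_apply (h : Tw h2 G Z →ₗ[DD G] I) (z : IV h2 G Z) :
    FXval h2 G I (twL h2 G I h z) = h (toTw h2 G Z z) := rfl

/-- the same map as a map of modules over the presented algebra -/
theorem tw_lin (h : Tw h2 G Z →ₗ[DD G] I) :
    ∃ h' : IV h2 G Z →ₗ[Dbl G] FX h2 G I, ∀ z, FXval h2 G I (h' z) = h (toTw h2 G Z z) := by
  have key : ∀ (a : Dbl G) (z : IV h2 G Z), twL h2 G I h (a • z) = a • twL h2 G I h z := by
    refine map_smul_of_gen G (twL h2 G I h) ?_ ?_ ?_ ?_ ?_
    · intro ν z
      apply FXval_injective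
      rw [FXval_smul, twL_apply, twL_apply, phiD_e, ← map_smul, smul_toTw, twA_e]
    · intro z
      apply FXval_injective
      rw [FXval_smul, twL_apply, twL_apply, phiD_par, ← map_smul, smul_toTw, twA_par]
    · intro ν z
      apply FXval_injective
      rw [FXval_smul, twL_apply, twL_apply, phiD_s, ← map_smul, smul_toTw, twA_s]
    · intro ν z
      apply FXval_injective
      rw [FXval_smul, twL_apply, twL_apply, phiD_x, ← map_smul, smul_toTw, twA_x]
    · intro ν z
      apply FXval_injective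
      rw [FXval_smul, twL_apply, twL_apply, phiD_xi, ← map_smul, smul_toTw, twA_uu_xi]
  exact ⟨{ toFun := twL h2 G I h, map_add' := map_add _, map_smul' := key }, fun z => rfl⟩

theorem eps_mem (z : Z) : epsH (k := k) (gen G).s • z ∈ IV h2 G Z := by
  intro μ
  rw [← mul_smul, s_epsH (gen G).s_add]

/-- the projection to the invariants -/
noncomputable def epsMap (Z : Type v) [AddCommGroup Z] [Module k Z] [Module (Dbl G) Z]
    [IsScalarTower k (Dbl G) Z] : Z →ₗ[Dbl G] IV h2 G Z where
  toFun z := ⟨epsH (k := k) (gen G).s • z, eps_mem h2 G z⟩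
  map_add' a b := Subtype.ext (smul_add _ _ _)
  map_smul' a z := by
    apply Subtype.ext
    show epsH (k := k) (gen G).s • a • z = a • epsH (k := k) (gen G).s • z
    rw [← mul_smul, ← epsH_comm fun μ => s_central h2 G μ a, mul_smul]

/-- the extension property -/
theorem FX_extend [Module.Injective (DD G) I] (f : Y →ₗ[Dbl G] Z) (hf : Function.Injective f)
    (g : Y →ₗ[Dbl G] FX h2 G I) : ∃ h : Z →ₗ[Dbl G] FX h2 G I, ∀ y, h (f y) = g y := by
  have hinj : Function.Injective (twMap h2 G f) := by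
    intro a b hab
    obtain ⟨a, rfl⟩ := toTw_surj h2 G Y a
    obtain ⟨b, rfl⟩ := toTw_surj h2 G Y b
    rw [twMap_apply, twMap_apply] at hab
    congr 1
    apply Subtype.ext
    apply hf
    exact congrArg Subtype.val ((toTw h2 G Z).injective hab)
  obtain ⟨h, hh⟩ := Module.Injective.out (twMap h2 G f) hinj (twOut h2 G I g)
  obtain ⟨h', hh'⟩ := tw_lin h2 G I h
  refine ⟨h'.comp (epsMap h2 G Z), fun y => ?_⟩
  apply FXval_injective
  have h1 : epsMap h2 G Z (f y) = ivMap h2 G f (epsMap h2 G Y y) := by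
    apply Subtype.ext
    exact (map_smul f _ _).symm
  rw [LinearMap.comp_apply, hh', h1, ← twMap_apply, hh, twOut_apply]
  show FXval h2 G I (g (epsH (k := k) (gen G).s • y)) = _
  rw [map_smul, epsH_smul h2 (fun μ => FX_s h2 G I (g y) μ)]

end Aux

/-- The functor preserves injective modules. -/
theorem injective_FX (h2 : (2 : k) ≠ 0) (G : HCData k X) (I : Type v) [AddCommGroup I] [Module k I]
    [Module (DD G) I] [IsScalarTower k (DD G) I] [Module.Injective (DD G) I] :
    Module.Injective (Dbl G) (FX h2 G I) := by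
  refine ⟨fun Y Z _ _ _ _ f hf g => ?_⟩
  let _ : Module k Y := Module.compHom Y (algebraMap k (Dbl G))
  let _ : Module k Z := Module.compHom Z (algebraMap k (Dbl G))
  have hY : IsScalarTower k (Dbl G) Y := ⟨fun c a y => by
    show (c • a) • y = algebraMap k (Dbl G) c • a • y
    rw [Algebra.smul_def, mul_smul]⟩
  have hZ : IsScalarTower k (Dbl G) Z := ⟨fun c a y => by
    show (c • a) • y = algebraMap k (Dbl G) c • a • y
    rw [Algebra.smul_def, mul_smul]⟩
  exact FX_extend h2 G I f hf g

end Pool.Agent.Work.MP_0c1793_al
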