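import Pool.Agent.Work.MP_0c1793_al.T.Fix
import Pool.Agent.Work.MP_0c1793_al.Pull
import Pool.Agent.Work.MP_0c1793_al.Main

/-! # The main theorem for the Drinfeld double -/

set_option autoImplicit false
set_option linter.unusedSectionVars false

universe u v

open CategoryTheory

namespace Pool.Agent.Work.MP_0c1793_al

open Pool.Agent.DG

variable {k : Type u} [Field k] {X : Type} [AddCommGroup X] [Fintype X] [DecidableEq X]

open scoped ModuleCat

variable (h2 : (2 : k) ≠ 0) (G : HCData k X)

attribute [local simp] phiD_e phiD_par phiD_s phiD_x phiD_xi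

/-- the invariants as an object -/
noncomputable def fObj (M : ModuleCat.{u} (DD G)) : ModuleCat.{u} (Dbl G) :=
  ModuleCat.of (Dbl G) (FX h2 G M)

variable {G}

/-- the underlying element -/
def fVal {M : ModuleCat.{u} (DD G)} (m : fObj h2 G M) : M := (show FS h2 G M from m).1

theorem fVal_inj {M : ModuleCat.{u} (DD G)} {m n : fObj h2 G M} (h : fVal h2 m = fVal h2 n) :
    m = n := Subtype.ext h

theorem fVal_mem {M : ModuleCat.{u} (DD G)} (m : fObj h2 G M) (μ : X) :
    (genD G).s (oddN X • μ) • fVal h2 m = fVal h2 m := (show FS h2 G M from m).2 μ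

/-- an element of the invariants -/
def fMk {M : ModuleCat.{u} (DD G)} (m : M) (h : ∀ μ : X, (genD G).s (oddN X • μ) • m = m) :
    fObj h2 G M := (⟨m, h⟩ : FS h2 G M)

@[simp] theorem fVal_fMk {M : ModuleCat.{u} (DD G)} (m : M)
    (h : ∀ μ : X, (genD G).s (oddN X • μ) • m = m) : fVal h2 (fMk h2 m h) = m := rfl

theorem fVal_add {M : ModuleCat.{u} (DD G)} (m n : fObj h2 G M) :
    fVal h2 (m + n) = fVal h2 m + fVal h2 n := rfl

@[simp] theorem fVal_zero {M : ModuleCat.{u} (DD G)} : fVal h2 (0 : fObj h2 G M) = 0 := rfl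

theorem fVal_smul {M : ModuleCat.{u} (DD G)} (a : Dbl G) (m : fObj h2 G M) :
    fVal h2 (a • m) = phiD h2 G a • fVal h2 m := rfl

/-- the map on the invariants -/
noncomputable def fMap {M N : ModuleCat.{u} (DD G)} (f : M ⟶ N) : fObj h2 G M ⟶ fObj h2 G N :=
  ModuleCat.ofHom
    { toFun := fun m => fMk h2 (f.hom (fVal h2 m)) fun μ => by
        rw [← map_smul, fVal_mem]
      map_add' := fun m n => fVal_inj h2 (by
        show f.hom (fVal h2 m + fVal h2 n) = f.hom (fVal h2 m) + f.hom (fVal h2 n)
        rw [map_add])
      map_smul' := fun a m => fVal_inj h2 (by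
        show f.hom (phiD h2 G a • fVal h2 m) = phiD h2 G a • f.hom (fVal h2 m)
        rw [map_smul]) }

theorem fVal_fMap {M N : ModuleCat.{u} (DD G)} (f : M ⟶ N) (m : fObj h2 G M) :
    fVal h2 ((fMap h2 f).hom m) = f.hom (fVal h2 m) := rfl

variable (G) in
/-- the functor of the invariants -/
noncomputable def fF : ModuleCat.{u} (DD G) ⥤ ModuleCat.{u} (Dbl G) where
  obj := fObj h2 G
  map f := fMap h2 f
  map_id _ := ModuleCat.hom_ext (LinearMap.ext fun _ => fVal_inj h2 rfl)
  map_comp _ _ := ModuleCat.hom_ext (LinearMap.ext fun _ => fVal_inj h2 rfl)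

instance : (fF h2 G).Additive where
  map_add := ModuleCat.hom_ext (LinearMap.ext fun _ => fVal_inj h2 rfl)

theorem fVal_ksmul {M : ModuleCat.{u} (DD G)} (c : k) (m : fObj h2 G M) :
    fVal h2 (c • m) = c • fVal h2 m := by
  rw [← algebraMap_smul (Dbl G) c m, fVal_smul, AlgHom.commutes, algebraMap_smul]

instance : (fF h2 G).Linear k where
  map_smul {M N} f c := by
    refine ModuleCat.hom_ext (LinearMap.ext fun m => fVal_inj h2 ?_)
    show (c • f).hom (fVal h2 m) = fVal h2 (c • (fMap h2 f).hom m)
    rw [fVal_ksmul]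
    rfl

/-! ## Exactness -/

/-- the projection to the invariants -/
theorem epsH_mem {M : ModuleCat.{u} (DD G)} (m : M) (μ : X) :
    (genD G).s (oddN X • μ) • (epsH (k := k) (genD G).s • m) = epsH (k := k) (genD G).s • m := by
  rw [smul_smul, s_epsH (genD G).s_add]

theorem fF_shortExact (S : ShortComplex (ModuleCat.{u} (DD G))) (hS : S.ShortExact) :
    (S.map (fF h2 G)).ShortExact := by
  have hi := hS.moduleCat_injective_f
  have hs := hS.moduleCat_surjective_g
  have he := (ShortComplex.ShortExact.moduleCat_exact_iff_function_exact S).1 hS.exact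
  refine ModuleCat.shortComplex_shortExact _ ?_ ?_ ?_
  · intro y
    constructor
    · intro hy
      have hy' : S.g.hom (fVal h2 y) = 0 := congrArg (fVal h2) hy
      obtain ⟨x, hx⟩ := (he (fVal h2 y)).1 hy'
      refine ⟨fMk h2 x fun μ => hi ?_, fVal_inj h2 ?_⟩
      · show S.f.hom ((genD G).s (oddN X • μ) • x) = S.f.hom x
        have hx' : S.f.hom x = fVal h2 y := hx
        rw [map_smul, hx', fVal_mem]
      · exact hx
    · rintro ⟨x, rfl⟩
      refine fVal_inj h2 ?_
      exact (he _).2 ⟨fVal h2 x, rfl⟩
  · intro x y hxy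
    exact fVal_inj h2 (hi (congrArg (fVal h2) hxy))
  · intro z
    obtain ⟨y, hy⟩ := hs (fVal h2 z)
    refine ⟨fMk h2 (epsH (k := k) (genD G).s • y) fun μ => epsH_mem y μ, fVal_inj h2 ?_⟩
    show S.g.hom (epsH (k := k) (genD G).s • y) = fVal h2 z
    have hy' : S.g.hom y = fVal h2 z := hy
    rw [map_smul, hy']
    exact epsH_smul h2 fun μ => fVal_mem h2 z μ

/-! ## Injective objects -/

theorem fF_injective (I : ModuleCat.{u} (DD G)) (hI : Injective I) :
    Injective ((fF h2 G).obj I) := by
  have h1 : Module.Injective (DD G) I := Module.injective_module_of_injective_object _ _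
  have h3 : Module.Injective (Dbl G) (FX h2 G I) := injective_FX h2 G I
  exact Module.injective_object_of_injective_module (Dbl G) (FX h2 G I)

/-! ## The unit object -/

theorem trivD_smul' (a : DD G) (m : TrivD G) : a • m = augD G a • m := rfl

/-- the augmentations agree -/
theorem augD_phiD (a : Dbl G) : augD G (phiD h2 G a) = aug G a := by
  have h : (augD G).comp (phiD h2 G) = aug G := by
    refine RingQuot.ringQuot_ext' _ _ _ ?_
    refine FreeAlgebra.hom_ext (funext fun g => ?_)
    show augD G (phiD h2 G (q G (fg k g))) = aug G (q G (fg k g))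
    cases g with
    | e ν =>
      show augD G (phiD h2 G ((gen G).e ν)) = aug G ((gen G).e ν)
      rw [phiD_e, augD_e]
      exact (lift_e (augOps G) ν).symm
    | par =>
      show augD G (phiD h2 G (gen G).par) = aug G (gen G).par
      rw [phiD_par, augD_par]
      exact (lift_par (augOps G)).symm
    | s μ =>
      show augD G (phiD h2 G ((gen G).s μ)) = aug G ((gen G).s μ)
      rw [phiD_s, augD_s]
      exact (lift_s (augOps G) μ).symm
    | x i =>
      show augD G (phiD h2 G ((gen G).x i)) = aug G ((gen G).x i)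
      rw [phiD_x, augD_x]
      exact (lift_x (augOps G) i).symm
    | xi i =>
      show augD G (phiD h2 G ((gen G).xi i)) = aug G ((gen G).xi i)
      rw [phiD_xi, map_mul, augD_xi, mul_zero]
      exact (lift_xi (augOps G) i).symm
  exact AlgHom.congr_fun h a

/-- the unit vector -/
noncomputable def uD (G : HCData k X) : unitD G := (1 : k)

variable (G) in
/-- the comparison of the unit objects -/
noncomputable def fPhi : unitObj G ⟶ (fF h2 G).obj (unitD G) :=
  ModuleCat.ofHom
    { toFun := fun c => fMk (G := G) (M := unitD G) h2 (show k from c) fun μ => by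
        show augD G ((genD G).s (oddN X • μ)) • (show k from c) = _
        rw [augD_s, one_smul]
      map_add' := fun m n => rfl
      map_smul' := fun a m => by
        refine fVal_inj (G := G) (M := unitD G) h2 ?_
        show aug G a • (show k from m) = augD G (phiD h2 G a) • (show k from m)
        rw [augD_phiD] }

theorem fVal_fPhi (c : unitObj G) :
    fVal (G := G) (M := unitD G) h2 ((fPhi h2 G).hom c) = (show k from c) := rfl

theorem eq_of_uD {M : ModuleCat.{u} (DD G)} (f g : unitD G ⟶ M)
    (h : f.hom (uD G) = g.hom (uD G)) : f = g := by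
  refine ModuleCat.hom_ext (LinearMap.ext fun m => ?_)
  have hm : m = algebraMap k (DD G) m • uD G := by
    show m = augD G (algebraMap k (DD G) m) • (1 : k)
    rw [AlgHom.commutes]
    exact (mul_one (show k from m)).symm
  rw [hm, map_smul, map_smul, h]

/-- the linear map from the trivial module given by a vector -/
noncomputable def ofInvD' {M : ModuleCat.{u} (DD G)} (w : M) : TrivD G →ₗ[k] M :=
  show k →ₗ[k] M from LinearMap.toSpanSingleton k M w

theorem ofInvD'_apply {M : ModuleCat.{u} (DD G)} (w : M) (c : TrivD G) :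
    ofInvD' w c = (show k from c) • w := rfl

/-- the morphism from the unit object given by an invariant vector -/
noncomputable def ofInvD {M : ModuleCat.{u} (DD G)} (w : M)
    (he : ∀ ν, (genD G).e ν • w = (if ν = 0 then (1 : k) else 0) • w)
    (hp : (genD G).par • w = w) (hs : ∀ μ, (genD G).s μ • w = w)
    (hx : ∀ i, (genD G).x i • w = 0) (hxi : ∀ i, (genD G).xi i • w = 0) : unitD G ⟶ M :=
  ModuleCat.ofHom
    { toFun := ofInvD' w
      map_add' := (ofInvD' w).map_add
      map_smul' := fun a m => by
        rw [RingHom.id_apply]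
        have hc : ∀ (b : DD G) (c : k), b • (c • w : M) = c • (b • w : M) := by
          intro b c
          rw [← algebraMap_smul (DD G) c w, ← algebraMap_smul (DD G) c (b • w), smul_smul,
            smul_smul, Algebra.commutes]
        refine mapD_smul_of_gen G (M := TrivD G) (N := M) (ofInvD' w) ?_ ?_ ?_ ?_ ?_ a m
        · intro ν c
          rw [ofInvD'_apply, ofInvD'_apply, hc, he, trivD_smul, augD_e]
          show ((if ν = 0 then (1 : k) else 0) * (show k from c)) • w = _
          rw [smul_smul, mul_comm]
        · intro c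
          rw [ofInvD'_apply, ofInvD'_apply, hc, hp, trivD_smul, augD_par]
          show ((1 : k) * (show k from c)) • w = _
          rw [one_mul]
        · intro μ c
          rw [ofInvD'_apply, ofInvD'_apply, hc, hs, trivD_smul, augD_s]
          show ((1 : k) * (show k from c)) • w = _
          rw [one_mul]
        · intro i c
          rw [ofInvD'_apply, ofInvD'_apply, hc, hx, trivD_smul, augD_x, smul_zero]
          show ((0 : k) * (show k from c)) • w = _
          rw [zero_mul, zero_smul]
        · intro i c
          rw [ofInvD'_apply, ofInvD'_apply, hc, hxi, trivD_smul, augD_xi, smul_zero]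
          show ((0 : k) * (show k from c)) • w = _
          rw [zero_mul, zero_smul] }

theorem ofInvD_uD {M : ModuleCat.{u} (DD G)} (w : M)
    (he : ∀ ν, (genD G).e ν • w = (if ν = 0 then (1 : k) else 0) • w)
    (hp : (genD G).par • w = w) (hs : ∀ μ, (genD G).s μ • w = w)
    (hx : ∀ i, (genD G).x i • w = 0) (hxi : ∀ i, (genD G).xi i • w = 0) :
    (ofInvD w he hp hs hx hxi).hom (uD G) = w := by
  show (1 : k) • w = w
  rw [one_smul]

/-- a morphism from the unit object gives an invariant vector -/
theorem hom_inv {M : ModuleCat.{u} (DD G)} (g : unitObj G ⟶ (fF h2 G).obj M) (a : Dbl G) :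
    phiD h2 G a • fVal h2 (g.hom (Dif.uv G)) =
      aug G a • fVal h2 (g.hom (Dif.uv G)) := by
  have h1 : a • Dif.uv G = algebraMap k (Dbl G) (aug G a) • Dif.uv G := by
    show aug G a • (1 : k) = aug G (algebraMap k (Dbl G) (aug G a)) • (1 : k)
    rw [AlgHom.commutes]
    rfl
  have h3 : a • g.hom (Dif.uv G) = algebraMap k (Dbl G) (aug G a) • g.hom (Dif.uv G) := by
    rw [← map_smul, h1, map_smul]
  have h4 := congrArg (fVal h2) h3
  refine (Eq.trans ?_ h4).trans ?_
  · rfl
  · show phiD h2 G (algebraMap k (Dbl G) (aug G a)) • fVal h2 (g.hom (Dif.uv G)) = _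
    rw [AlgHom.commutes, algebraMap_smul]

theorem fF_bij (M : ModuleCat.{u} (DD G)) :
    Function.Bijective (fun f : unitD G ⟶ M => fPhi h2 G ≫ (fF h2 G).map f) := by
  constructor
  · intro f g hfg
    refine eq_of_uD f g ?_
    have h := congrArg (fun φ => fVal h2 (ModuleCat.Hom.hom φ (Dif.uv G))) hfg
    exact h
  · intro g
    set w : M := fVal h2 (g.hom (Dif.uv G)) with hw
    have hinv : ∀ a : Dbl G, phiD h2 G a • w = aug G a • w := hom_inv h2 g
    have he : ∀ ν, (genD G).e ν • w = (if ν = 0 then (1 : k) else 0) • w := fun ν => by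
      rw [← phiD_e h2 G ν, hinv]
      congr 1
      exact lift_e (augOps G) ν
    have hp : (genD G).par • w = w := by
      rw [← phiD_par h2 G, hinv, show aug G (gen G).par = 1 from lift_par (augOps G), one_smul]
    have hs : ∀ μ, (genD G).s μ • w = w := fun μ => by
      rw [← phiD_s h2 G μ, hinv, show aug G ((gen G).s μ) = 1 from lift_s (augOps G) μ, one_smul]
    have hx : ∀ i, (genD G).x i • w = 0 := fun i => by
      rw [← phiD_x h2 G i, hinv, show aug G ((gen G).x i) = 0 from lift_x (augOps G) i, zero_smul]
    have hxi : ∀ i, (genD G).xi i • w = 0 := fun i => by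
      have h1 := hinv ((gen G).xi i)
      rw [phiD_xi, show aug G ((gen G).xi i) = 0 from lift_xi (augOps G) i, zero_smul,
        ← uu_comm ((genD G).xi_s i _), mul_smul] at h1
      have h3 : uu (k := k) (genD G).s (G.wt i) • w = w := by
        unfold uu
        rw [smul_assoc, add_smul, one_smul, hs, ← two_smul k w, smul_smul, inv_mul_cancel₀ h2,
          one_smul]
      rwa [h3] at h1
    refine ⟨ofInvD w he hp hs hx hxi, ?_⟩
    refine Dif.eq_of_uv _ _ ?_
    refine fVal_inj h2 ?_
    exact ofInvD_uD w he hp hs hx hxi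

/-- the conditions on the functor -/
theorem finite_fObj (V : ModuleCat.{u} (DD G)) (hV : Module.Finite k V) :
    Module.Finite k ((fF h2 G).obj V) := by
  let f : (fF h2 G).obj V →ₗ[k] V :=
    { toFun := fVal h2
      map_add' := fVal_add h2
      map_smul' := fVal_ksmul h2 }
  exact Module.Finite.of_injective f fun _ _ h => fVal_inj h2 h

variable (G) in
/-- the conditions on the functor -/
noncomputable def pullD : Res.PullData (fF h2 G) (unitD G) (unitObj G) where
  φ := fPhi h2 G
  ses := fF_shortExact h2
  inj := fF_injective h2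
  bij := fF_bij h2

theorem finite_unitD : Module.Finite k (unitD G) := by
  refine ⟨⟨{uD G}, ?_⟩⟩
  rw [eq_top_iff]
  rintro m -
  have hm : m = (show k from m) • uD G := by
    rw [← algebraMap_smul (DD G)]
    show m = augD G (algebraMap k (DD G) m) • (1 : k)
    rw [AlgHom.commutes]
    exact (mul_one (show k from m)).symm
  rw [hm]
  exact Submodule.smul_mem _ _ (Submodule.subset_span (by simp))

/-- The finite generation property of the cohomology of the double of a finite supergroup scheme
with diagonalizable even part. -/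
theorem mainD (G : HCData k X) (h2 : (2 : k) ≠ 0) :
    Pool.Agent.DG.FGC.{u} k (unitD G) (fun V => Module.Finite k V) := by
  obtain ⟨κ⟩ := exists_coord X
  have hops : ∀ (M : Type u) [AddCommGroup M] [Module k M] [Module (Dbl G) M]
      [IsScalarTower k (Dbl G) M] (i : (Fin G.m ⊕ Fin G.m) ⊕ Fin κ.r)
      (f : CC k M (Fin G.m ⊕ Fin G.m) κ.r),
      (difDC G h2 κ fun M _ _ _ _ _ => divC G κ h2 M).D M (opsC M κ.r (rr G) i f) =
        opsC M κ.r (rr G) i ((difDC G h2 κ fun M _ _ _ _ _ => divC G κ h2 M).D M f) :=
    fun _ _ _ _ _ i f => DC_opsC i f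
  exact Res.Ops.fgc_pull (pullD h2 G)
    ((difDC G h2 κ fun M _ _ _ _ _ => divC G κ h2 M).opsR h2 hops)
    (fun V => Module.Finite k V) (fun V => Module.Finite k V) (finite_fObj h2) finite_unitD
    ((difDC G h2 κ fun M _ _ _ _ _ => divC G κ h2 M).words h2 hops)

end Pool.Agent.Work.MP_0c1793_al
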