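import Pool.Agent.Work.MP_0c1793_al.T.Eps

/-! # The comparison of the two presentations -/

set_option autoImplicit false

universe u v

namespace Pool.Agent.Work.MP_0c1793_al

variable {k : Type u} [Field k] {X : Type} [AddCommGroup X] [Fintype X] [DecidableEq X]

section

variable {B : Type v} [Ring B] [Algebra k B]

/-- the element `(1 + s^l) / 2` -/
noncomputable def uu (s : X → B) (l : X) : B := (2⁻¹ : k) • (1 + s l)

/-- its inverse where `s^(N l) = 1` -/
noncomputable def vv (s : X → B) (l : X) : B :=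
  ∑ n ∈ Finset.range (oddN X), (-1) ^ n * s (n • l)

omit [DecidableEq X] in
theorem s_nsmul {s : X → B} (hs0 : s 0 = 1) (hs : ∀ μ μ', s μ * s μ' = s (μ + μ')) (l : X)
    (n : ℕ) : s (n • l) = s l ^ n := by
  induction n with
  | zero => rw [zero_smul, hs0, pow_zero]
  | succ n ih => rw [succ_nsmul, ← hs, ih, pow_succ]

omit [DecidableEq X] in
theorem vv_eq {s : X → B} (hs0 : s 0 = 1) (hs : ∀ μ μ', s μ * s μ' = s (μ + μ')) (l : X) :
    vv s l = ∑ n ∈ Finset.range (oddN X), (-s l) ^ n := by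
  unfold vv
  refine Finset.sum_congr rfl fun n _ => ?_
  rw [s_nsmul hs0 hs, ← neg_one_mul (s l), (Commute.neg_one_left (s l)).mul_pow]

theorem one_add_pow {s : X → B} (hs0 : s 0 = 1)
    (hs : ∀ μ μ', s μ * s μ' = s (μ + μ')) (l : X) (h : s (oddN X • l) = 1) :
    1 - (-s l) ^ oddN X = 2 := by
  rw [s_nsmul hs0 hs] at h
  rw [oddN_odd.neg_pow, h, sub_neg_eq_add, one_add_one_eq_two]

theorem half_two (h2 : (2 : k) ≠ 0) : (2⁻¹ : k) • (2 : B) = 1 := by
  have h : (2 : B) = (2 : k) • (1 : B) := by rw [two_smul, one_add_one_eq_two]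
  rw [h, smul_smul, inv_mul_cancel₀ h2, one_smul]

theorem uu_vv (h2 : (2 : k) ≠ 0) {s : X → B} (hs0 : s 0 = 1)
    (hs : ∀ μ μ', s μ * s μ' = s (μ + μ')) (l : X) (h : s (oddN X • l) = 1) :
    uu (k := k) s l * vv s l = 1 := by
  have h1 := mul_neg_geom_sum (-s l) (oddN X)
  rw [one_add_pow hs0 hs l h, sub_neg_eq_add] at h1
  rw [vv_eq hs0 hs, uu, smul_mul_assoc, h1, half_two h2]

theorem vv_uu (h2 : (2 : k) ≠ 0) {s : X → B} (hs0 : s 0 = 1)
    (hs : ∀ μ μ', s μ * s μ' = s (μ + μ')) (l : X) (h : s (oddN X • l) = 1) :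
    vv s l * uu (k := k) s l = 1 := by
  have h1 := geom_sum_mul_neg (-s l) (oddN X)
  rw [one_add_pow hs0 hs l h, sub_neg_eq_add] at h1
  rw [vv_eq hs0 hs, uu, mul_smul_comm, h1, half_two h2]

omit [DecidableEq X] [Fintype X] in
theorem uu_comm {s : X → B} {l : X} {a : B} (h : a * s l = s l * a) :
    a * uu (k := k) s l = uu (k := k) s l * a := by
  unfold uu
  rw [mul_smul_comm, smul_mul_assoc, mul_add, add_mul, h, mul_one, one_mul]

omit [DecidableEq X] in
theorem vv_comm {s : X → B} {l : X} {a : B} (h : ∀ n : ℕ, a * s (n • l) = s (n • l) * a) :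
    a * vv s l = vv s l * a := by
  unfold vv
  rw [Finset.mul_sum, Finset.sum_mul]
  refine Finset.sum_congr rfl fun n _ => ?_
  rw [← mul_assoc, ((Commute.neg_one_right a).pow_right n).eq, mul_assoc, h, mul_assoc]

end

variable {G : HCData k X} {B : Type v} [Ring B] [Algebra k B]

theorem uu_neg_wt (s : X → B) {i j : Fin G.m} (h : G.c i j ≠ 0) :
    uu (k := k) s (G.wt j) = (2⁻¹ : k) • (1 + s (-G.wt i)) := by
  unfold uu
  rw [(neg_eq_of_add_eq_zero_right (G.inv i j h)).symm]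

theorem uu_mul_sub (s : X → B) (hs0 : s 0 = 1) (hs : ∀ μ μ', s μ * s μ' = s (μ + μ')) (l : X) :
    uu (k := k) s l * (1 - s (-l)) = (2⁻¹ : k) • (s l - s (-l)) := by
  unfold uu
  rw [smul_mul_assoc, add_mul, one_mul, mul_sub, mul_one, hs, add_neg_cancel, hs0]
  congr 1
  abel

namespace OpsD

variable (o : OpsD G B)

theorem x_comm (i : Fin G.m) {μ : X} (h : ∀ j, G.c i j μ = 0) : o.x i * o.s μ = o.s μ * o.x i := by
  have h1 := o.x_s i μ
  rw [Finset.sum_eq_zero (fun j _ => by rw [h j, zero_smul]), mul_zero, smul_zero,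
    sub_eq_zero] at h1
  exact h1

theorem s_comm (μ μ' : X) : o.s μ * o.s μ' = o.s μ' * o.s μ := by
  rw [o.s_add, o.s_add, add_comm]

/-- the rescaled generators -/
noncomputable def toOps (h2 : (2 : k) ≠ 0) (o : OpsD G B) : Ops G B where
  e := o.e
  par := o.par
  s := o.s
  x := o.x
  xi j := uu (k := k) o.s (G.wt j) * o.xi j
  e_mul := o.e_mul
  e_sum := o.e_sum
  par_sq := o.par_sq
  par_e := o.par_e
  par_s := o.par_s
  par_x := o.par_x
  par_xi j := by
    rw [← mul_assoc, uu_comm (o.par_s _), mul_assoc, o.par_xi, mul_neg, mul_assoc]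
  s_zero := o.s_zero
  s_add := o.s_add
  s_e := o.s_e
  x_e := o.x_e
  xi_e j ν := by
    rw [mul_assoc, o.xi_e, ← mul_assoc, ← uu_comm (o.s_e _ _).symm, mul_assoc]
  x_x := o.x_x
  xi_xi i j := by
    have h1 : ∀ i j, uu (k := k) o.s (G.wt i) * o.xi i * (uu (k := k) o.s (G.wt j) * o.xi j) =
        uu (k := k) o.s (G.wt i) * uu (k := k) o.s (G.wt j) * (o.xi i * o.xi j) := by
      intro i j
      rw [mul_assoc, ← mul_assoc (o.xi i), uu_comm (o.xi_s _ _)]
      simp only [mul_assoc]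
    rw [h1, h1, uu_comm (s := o.s) (uu_comm (o.s_comm _ _)).symm, ← mul_add, o.xi_xi, mul_zero]
  xi_s i μ := by
    rw [mul_assoc, o.xi_s, ← mul_assoc, ← uu_comm (o.s_comm _ _), mul_assoc]
  x_xi i j := by
    have hc : o.x i * uu (k := k) o.s (G.wt j) = uu (k := k) o.s (G.wt j) * o.x i :=
      uu_comm (o.x_comm i fun h => G.jac i h j)
    rw [← mul_assoc, hc, mul_assoc, mul_assoc, ← mul_add, o.x_xi]
    split_ifs with h
    · subst h
      exact uu_mul_sub o.s o.s_zero o.s_add _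
    · rw [mul_zero]
  x_s i μ := by
    rw [o.x_s, Finset.mul_sum, Finset.mul_sum, Finset.smul_sum]
    refine Finset.sum_congr rfl fun j _ => ?_
    by_cases h : G.c i j = 0
    · rw [h]
      simp
    · rw [uu_neg_wt o.s h, mul_smul_comm, mul_smul_comm, smul_comm]
      congr 1
      have h4 : (2⁻¹ : k) • (1 + o.s (-G.wt i)) * o.s μ =
          o.s μ * ((2⁻¹ : k) • (1 + o.s (-G.wt i))) := by
        rw [smul_mul_assoc, mul_smul_comm, mul_add, add_mul, one_mul, mul_one, o.s_comm]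
      rw [← mul_assoc, ← h4, smul_mul_assoc, smul_mul_assoc]

end OpsD

/-- the homomorphism of the presented algebras -/
noncomputable def phiD (h2 : (2 : k) ≠ 0) (G : HCData k X) : Dbl G →ₐ[k] DD G :=
  ((genD G).toOps h2).lift

theorem Ops.x_comm (o : Ops G B) (i : Fin G.m) {μ : X} (h : ∀ j, G.c i j μ = 0) :
    o.x i * o.s μ = o.s μ * o.x i := by
  have h1 := o.x_s i μ
  rw [Finset.sum_eq_zero (fun j _ => by rw [h j, zero_smul]), mul_zero, sub_eq_zero] at h1
  exact h1

theorem Ops.s_comm' (o : Ops G B) (μ μ' : X) : o.s μ * o.s μ' = o.s μ' * o.s μ := by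
  rw [o.s_add, o.s_add, add_comm]

/-- the inverse rescaling -/
noncomputable def Ops.toOpsD (h2 : (2 : k) ≠ 0) (o : Ops G B)
    (h : ∀ μ, o.s (oddN X • μ) = 1) : OpsD G B where
  e := o.e
  par := o.par
  s := o.s
  x := o.x
  xi j := vv o.s (G.wt j) * o.xi j
  e_mul := o.e_mul
  e_sum := o.e_sum
  par_sq := o.par_sq
  par_e := o.par_e
  par_s := o.par_s
  par_x := o.par_x
  par_xi j := by
    rw [← mul_assoc, vv_comm (fun _ => o.par_s _), mul_assoc, o.par_xi, mul_neg, mul_assoc]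
  s_zero := o.s_zero
  s_add := o.s_add
  s_e := o.s_e
  x_e := o.x_e
  xi_e j ν := by
    rw [mul_assoc, o.xi_e, ← mul_assoc, ← vv_comm (fun _ => (o.s_e _ _).symm), mul_assoc]
  x_x := o.x_x
  xi_xi i j := by
    have h1 : ∀ i j, vv o.s (G.wt i) * o.xi i * (vv o.s (G.wt j) * o.xi j) =
        vv o.s (G.wt i) * vv o.s (G.wt j) * (o.xi i * o.xi j) := by
      intro i j
      rw [mul_assoc, ← mul_assoc (o.xi i), vv_comm (fun _ => o.xi_s _ _)]
      simp only [mul_assoc]
    rw [h1, h1, vv_comm (s := o.s) (fun n => (vv_comm (fun n' => o.s_comm' _ _)).symm),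
      ← mul_add, o.xi_xi, mul_zero]
  xi_s i μ := by
    rw [mul_assoc, o.xi_s, ← mul_assoc, ← vv_comm (fun _ => o.s_comm' _ _), mul_assoc]
  x_xi i j := by
    have hc : o.x i * vv o.s (G.wt j) = vv o.s (G.wt j) * o.x i :=
      vv_comm (fun n => o.x_comm i fun h => by rw [map_nsmul, G.jac i h j, smul_zero])
    rw [← mul_assoc, hc, mul_assoc, mul_assoc, ← mul_add, o.x_xi]
    split_ifs with h'
    · subst h'
      rw [← uu_mul_sub o.s o.s_zero o.s_add, ← mul_assoc,
        vv_uu h2 o.s_zero o.s_add _ (h _), one_mul]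
    · rw [mul_zero]
  x_s i μ := by
    rw [o.x_s, Finset.mul_sum, Finset.mul_sum, Finset.smul_sum]
    refine Finset.sum_congr rfl fun j _ => ?_
    by_cases hc : G.c i j = 0
    · rw [hc]
      simp
    · have h3 := uu_vv h2 o.s_zero o.s_add (G.wt j) (h _)
      rw [uu_neg_wt o.s hc] at h3
      rw [mul_smul_comm, mul_smul_comm, smul_comm]
      congr 1
      rw [← smul_mul_assoc, ← smul_mul_assoc]
      have h4 : (2⁻¹ : k) • (1 + o.s (-G.wt i)) * o.s μ =
          o.s μ * ((2⁻¹ : k) • (1 + o.s (-G.wt i))) := by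
        rw [smul_mul_assoc, mul_smul_comm, mul_add, add_mul, one_mul, mul_one, o.s_comm']
      rw [h4, mul_assoc, ← mul_assoc ((2⁻¹ : k) • (1 + o.s (-G.wt i))), h3, one_mul]

end Pool.Agent.Work.MP_0c1793_al
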